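import Pool.Agent.W873.RT.Stm

set_option autoImplicit false

open MeasureTheory ProbabilityTheory Polynomial Filter Topology
open scoped ENNReal NNReal

namespace Pool.Agent.W859.RT.AFF

open Pool.Agent.W873.RS (sc)

theorem sc_iff (a b : ℝ) : sc a b ↔ (a < 0 ∧ 0 ≤ b) ∨ (0 ≤ a ∧ b < 0) := by
  unfold sc
  constructor
  · intro h
    by_cases ha : a < 0
    · by_cases hb : b < 0
      · exact absurd (iff_of_true ha hb) h
      · exact Or.inl ⟨ha, not_lt.mp hb⟩
    · by_cases hb : b < 0
      · exact Or.inr ⟨not_lt.mp ha, hb⟩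
      · exact absurd (iff_of_false ha hb) h
  · rintro (⟨ha, hb⟩ | ⟨ha, hb⟩) h
    · exact absurd (h.mp ha) (not_lt.mpr hb)
    · exact absurd (h.mpr hb) (not_lt.mpr ha)

theorem section_subset (P Q p q : ℝ) (hp : 0 < p) (hq : 0 < q) :
    {t : ℝ | sc (t * p + P) (t * q + Q)} ⊆ Set.uIcc (-(P / p)) (-(Q / q)) := by
  intro t ht
  rw [Set.mem_setOf_eq, sc_iff] at ht
  have e1 : ∀ (p P : ℝ), 0 < p → (t * p + P < 0 ↔ t < -(P / p)) := by
    intro p P hp
    rw [lt_neg, neg_eq_neg_one_mul, div_lt_iff₀ hp] 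
    constructor <;> intro h <;> nlinarith
  have e2 : ∀ (p P : ℝ), 0 < p → (0 ≤ t * p + P ↔ -(P / p) ≤ t) := by
    intro p P hp
    have := e1 p P hp
    constructor
    · intro h
      by_contra hc
      exact absurd (this.mpr (not_le.mp hc)) (not_lt.mpr h)
    · intro h
      by_contra hc
      exact absurd (this.mp (not_le.mp hc)) (not_lt.mpr h)
  rw [Set.mem_uIcc]
  rcases ht with ⟨h1, h2⟩ | ⟨h1, h2⟩
  · right
    exact ⟨(e2 q Q hq).mp h2, le_of_lt ((e1 p P hp).mp h1)⟩
  · left
    exact ⟨(e2 p P hp).mp h1, le_of_lt ((e1 q Q hq).mp h2)⟩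

theorem sum_update {s : ℕ} (x v : Fin s → ℝ) (j : Fin s) (t : ℝ) :
    ∑ i, Function.update x j t i * v i = t * v j + ∑ i ∈ Finset.univ.erase j, x i * v i := by
  rw [← Finset.add_sum_erase _ _ (Finset.mem_univ j)]
  congr 1
  · rw [Function.update_self]
  · apply Finset.sum_congr rfl
    intro i hi
    rw [Function.update_of_ne (Finset.ne_of_mem_erase hi)]

theorem section_bound {s : ℕ} (ν : Measure ℝ) (K : ℝ≥0) (hK : ν ≤ (K : ℝ≥0∞) • volume)
    (x v w : Fin s → ℝ) (j : Fin s) (hv : 0 < v j) (hw : 0 < w j) :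
    ν {t | sc (∑ i, Function.update x j t i * v i) (∑ i, Function.update x j t i * w i)} ≤
      K * ∑ i ∈ Finset.univ.erase j, ENNReal.ofReal |x i| *
        ENNReal.ofReal |v i / v j - w i / w j| := by
  have h1 : {t | sc (∑ i, Function.update x j t i * v i) (∑ i, Function.update x j t i * w i)} ⊆
      Set.uIcc (-((∑ i ∈ Finset.univ.erase j, x i * v i) / v j))
        (-((∑ i ∈ Finset.univ.erase j, x i * w i) / w j)) := by
    refine Set.Subset.trans ?_ (section_subset _ _ (v j) (w j) hv hw)
    intro t ht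
    rw [Set.mem_setOf_eq, sum_update, sum_update] at ht
    exact ht
  refine (measure_mono h1).trans ((hK _).trans ?_)
  rw [Measure.smul_apply, smul_eq_mul, Real.volume_interval]
  gcongr
  have h2 : |-((∑ i ∈ Finset.univ.erase j, x i * w i) / w j) -
      -((∑ i ∈ Finset.univ.erase j, x i * v i) / v j)| ≤
      ∑ i ∈ Finset.univ.erase j, |x i| * |v i / v j - w i / w j| := by
    have h3 : -((∑ i ∈ Finset.univ.erase j, x i * w i) / w j) -
      -((∑ i ∈ Finset.univ.erase j, x i * v i) / v j) =
      ∑ i ∈ Finset.univ.erase j, x i * (v i / v j - w i / w j) := by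
      rw [Finset.sum_div, Finset.sum_div, neg_sub_neg, ← Finset.sum_sub_distrib]
      apply Finset.sum_congr rfl
      intro i _
      ring
    rw [h3]
    refine (Finset.abs_sum_le_sum_abs _ _).trans ?_
    apply Finset.sum_le_sum
    intro i _
    rw [abs_mul]
  refine (ENNReal.ofReal_le_ofReal h2).trans ?_
  rw [ENNReal.ofReal_sum_of_nonneg (fun i _ => by positivity)]
  apply Finset.sum_le_sum
  intro i _
  rw [ENNReal.ofReal_mul (abs_nonneg _)]

theorem main : Pool.Agent.W873.RT.AFF := by
  intro s μ _ K M v w j hK hM hv hw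
  set E : Set (Fin s → ℝ) := {c | sc (∑ i, c i * v i) (∑ i, c i * w i)} with hE
  have mv : ∀ u : Fin s → ℝ, Measurable (fun c : Fin s → ℝ => ∑ i, c i * u i) := by
    intro u
    fun_prop
  have mE : MeasurableSet E := by
    have : E = ({c | (∑ i, c i * v i) < 0} ∩ {c | 0 ≤ ∑ i, c i * w i}) ∪
        ({c | 0 ≤ (∑ i, c i * v i)} ∩ {c | ∑ i, c i * w i < 0}) := by
      ext c
      rw [hE, Set.mem_setOf_eq, sc_iff]
      rfl
    rw [this]
    exact ((measurableSet_lt (mv v) measurable_const).inter
      (measurableSet_le measurable_const (mv w))).union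
      ((measurableSet_le measurable_const (mv v)).inter (measurableSet_lt (mv w) measurable_const))
  set g : (Fin s → ℝ) → ℝ≥0∞ := fun c => K * ∑ i ∈ Finset.univ.erase j, ENNReal.ofReal |c i| *
        ENNReal.ofReal |v i / v j - w i / w j| with hg
  have mg : Measurable g := by
    rw [hg]
    fun_prop
  have key : ∫⁻ c, E.indicator 1 c ∂(Measure.pi μ) ≤ ∫⁻ c, g c ∂(Measure.pi μ) := by
    apply lintegral_le_of_lmarginal_le {j} (measurable_one.indicator mE) mg
    rw [lmarginal_singleton, lmarginal_singleton]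
    intro x
    have e1 : ∫⁻ t, g (Function.update x j t) ∂(μ j) = g x := by
      have : ∀ t, g (Function.update x j t) = g x := by
        intro t
        simp only [hg]
        congr 1
        apply Finset.sum_congr rfl
        intro i hi
        rw [Function.update_of_ne (Finset.ne_of_mem_erase hi)]
      simp_rw [this]
      rw [lintegral_const, measure_univ, mul_one]
    have e2 : ∫⁻ t, E.indicator (1 : (Fin s → ℝ) → ℝ≥0∞) (Function.update x j t) ∂(μ j) =
        μ j {t | sc (∑ i, Function.update x j t i * v i)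
          (∑ i, Function.update x j t i * w i)} := by
      have hm : Measurable (fun t : ℝ => Function.update x j t) := measurable_update x
      have : ∀ t : ℝ, E.indicator (1 : (Fin s → ℝ) → ℝ≥0∞) (Function.update x j t) =
          ((fun t : ℝ => Function.update x j t) ⁻¹' E).indicator (1 : ℝ → ℝ≥0∞) t := by
        intro t
        rfl
      simp_rw [this]
      rw [lintegral_indicator_one (hm mE)]
      rfl
    show (∫⁻ t, E.indicator (1 : (Fin s → ℝ) → ℝ≥0∞) (Function.update x j t) ∂(μ j)) ≤
      ∫⁻ t, g (Function.update x j t) ∂(μ j)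
    rw [e1, e2]
    exact section_bound (μ j) K (hK j) x v w j hv hw
  rw [lintegral_indicator_one mE] at key
  refine key.trans ?_
  have e3 : ∫⁻ c, g c ∂(Measure.pi μ) = K * ∑ i ∈ Finset.univ.erase j,
      (∫⁻ c, ENNReal.ofReal |c| ∂(μ i)) * ENNReal.ofReal |v i / v j - w i / w j| := by
    simp only [hg]
    rw [lintegral_const_mul _ (by fun_prop), lintegral_finset_sum _ (by intro i _; fun_prop)]
    congr 1
    apply Finset.sum_congr rfl
    intro i _
    rw [lintegral_mul_const _ (by fun_prop)]
    congr 1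
    exact (measurePreserving_eval μ i).lintegral_comp
      (f := fun c : ℝ => ENNReal.ofReal |c|) (by fun_prop)
  rw [e3, mul_assoc]
  gcongr
  rw [Finset.mul_sum]
  refine (Finset.sum_le_sum (fun i _ => ?_)).trans
    (Finset.sum_le_sum_of_subset (Finset.erase_subset j Finset.univ))
  exact mul_le_mul_left (hM i) _

end Pool.Agent.W859.RT.AFF
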